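import Pool.Agent.helper25.TW.Spec

/-!
Row two:SUM: the sum of the probabilities of the bad events.
-/

set_option autoImplicit false

namespace TP.TW

open DP MeasureTheory Finset

private theorem SUM_cnt (Im S : Finset V) (α β : ℤ) (r : ℕ) :
    ∑ v ∈ Im, #(S.filter fun w => sd (v.1 + α, v.2 + β) w ≤ r) ≤ #S * (2 * r + 1) ^ 2 := by
  classical
  have h := Finset.sum_card_bipartiteAbove_eq_sum_card_bipartiteBelow (s := Im) (t := S)
    (fun v w => sd (v.1 + α, v.2 + β) w ≤ r)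
  have h1 : ∑ v ∈ Im, #(S.filter fun w => sd (v.1 + α, v.2 + β) w ≤ r) =
      ∑ w ∈ S, #(Im.bipartiteBelow (fun v w => sd (v.1 + α, v.2 + β) w ≤ r) w) := by
    rw [← h]
    rfl
  rw [h1, ← smul_eq_mul]
  refine Finset.sum_le_card_nsmul _ _ _ fun w _ => ?_
  have hsub : Im.bipartiteBelow (fun v w => sd (v.1 + α, v.2 + β) w ≤ r) w ⊆
      (Icc (w.1 - α - r) (w.1 - α + r)) ×ˢ (Icc (w.2 - β - r) (w.2 - β + r)) := by
    intro v hv
    rw [Finset.mem_bipartiteBelow] at hv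
    have h2 := hv.2
    unfold sd at h2
    have h3 : (v.1 + α - w.1).natAbs ≤ r := (le_max_left _ _).trans h2
    have h4 : (v.2 + β - w.2).natAbs ≤ r := (le_max_right _ _).trans h2
    rw [mem_product, mem_Icc, mem_Icc]
    omega
  refine (card_le_card hsub).trans ?_
  rw [card_product, Int.card_Icc, Int.card_Icc]
  have e1 : (w.1 - α + r + 1 - (w.1 - α - r)).toNat = 2 * r + 1 := by omega
  have e2 : (w.2 - β + r + 1 - (w.2 - β - r)).toNat = 2 * r + 1 := by omega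
  rw [e1, e2]
  exact le_of_eq (by ring)

private theorem SUM_cntR (Im S : Finset V) (α β : ℤ) (r : ℕ) :
    ∑ v ∈ Im, (#(S.filter fun w => sd (v.1 + α, v.2 + β) w ≤ r) : ℝ) ≤
      #S * (2 * r + 1) ^ 2 := by
  have h := SUM_cnt Im S α β r
  exact_mod_cast h

/-- the index set of the union bound -/
private noncomputable def SUM_J (n : ℕ) : Finset (ℕ × Bool × ℤ × ℤ) :=
  (range (Nat.log 2 n + 1)) ×ˢ (univ : Finset Bool) ×ˢ (Icc (-400 : ℤ) 400) ×ˢ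
    (Icc (-400 : ℤ) 400)

private theorem SUM_J_card (n : ℕ) : #(SUM_J n) = (Nat.log 2 n + 1) * (2 * (801 * 801)) := by
  unfold SUM_J
  rw [card_product, card_product, card_product, card_range, Int.card_Icc]
  rfl

private theorem SUM_log (n : ℕ) (hn : 2 ≤ n) : (1 : ℝ) ≤ 2 * Real.log n ∧
    ((Nat.log 2 n : ℕ) : ℝ) ≤ 2 * Real.log n := by
  have h2 : (1 / 2 : ℝ) ≤ Real.log 2 := by
    have := Real.log_two_gt_d9
    linarith
  have h3 : Real.log 2 ≤ Real.log n :=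
    Real.log_le_log (by norm_num) (by exact_mod_cast hn)
  refine ⟨by linarith, ?_⟩
  have h4 : (2 : ℝ) ^ (Nat.log 2 n) ≤ n := by
    exact_mod_cast Nat.pow_log_le_self 2 (by omega)
  have h5 : (Nat.log 2 n : ℝ) * Real.log 2 ≤ Real.log n := by
    rw [← Real.log_pow]
    exact Real.log_le_log (by positivity) h4
  have h6 : (0 : ℝ) ≤ (Nat.log 2 n : ℝ) := Nat.cast_nonneg _
  nlinarith

theorem SUM (cv : CV_stmt) (spr : SPR_stmt) (_lcr : LCR_stmt) : SUM_stmt := by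
  classical
  obtain ⟨C, hC, hS⟩ := spr
  refine ⟨2 * 401 ^ 2 + 4 * (2 * (801 * 801) * (81 * C)), by positivity, ?_⟩
  intro n S hn hSub
  have hP1 : IsProbabilityMeasure P1 := by unfold P1; infer_instance
  have key : ∀ v₀ ∈ (univ : Finset (Fin n × Fin n)).image phi,
      Pr (Ev fun c => BAD c S v₀) ≤ (#(S.filter fun w => sd (v₀.1 + 0, v₀.2 + 0) w ≤ 200) : ℝ) +
        ∑ j ∈ SUM_J n, C * #(S.filter fun v =>
          sd (v₀.1 + 2 ^ j.1 * j.2.2.1, v₀.2 + 2 ^ j.1 * j.2.2.2) v ≤ 3 * 2 ^ j.1 + 1) /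
            ((2 ^ j.1 : ℕ) : ℝ) ^ 2 := by
    intro v₀ hv₀
    have hnn : ∀ j ∈ SUM_J n, (0 : ℝ) ≤ C * #(S.filter fun v =>
          sd (v₀.1 + 2 ^ j.1 * j.2.2.1, v₀.2 + 2 ^ j.1 * j.2.2.2) v ≤ 3 * 2 ^ j.1 + 1) /
            ((2 ^ j.1 : ℕ) : ℝ) ^ 2 := fun j _ => by positivity
    by_cases hw : ∃ w ∈ S, sd v₀ w ≤ 200
    · obtain ⟨w, hwS, hw⟩ := hw
      have h1 : (1 : ℝ) ≤ (#(S.filter fun w => sd (v₀.1 + 0, v₀.2 + 0) w ≤ 200) : ℝ) := by
        have : 0 < #(S.filter fun w => sd (v₀.1 + 0, v₀.2 + 0) w ≤ 200) := by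
          rw [card_pos]
          refine ⟨w, mem_filter.2 ⟨hwS, ?_⟩⟩
          have e : ((v₀.1 + 0, v₀.2 + 0) : V) = v₀ := by simp
          rw [e]
          exact hw
        exact_mod_cast this
      have h2 : Pr (Ev fun c => BAD c S v₀) ≤ 1 := measureReal_le_one
      have h3 := Finset.sum_nonneg hnn
      linarith
    · have hsub : (Ev fun c => BAD c S v₀) ⊆ ⋃ j ∈ SUM_J n, Ev fun c =>
          SR c j.2.1 S (v₀.1 + 2 ^ j.1 * j.2.2.1, v₀.2 + 2 ^ j.1 * j.2.2.2) (2 ^ j.1) := by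
        intro β hβ
        rcases cv n (col β) S v₀ hn hSub hv₀ hβ with h | ⟨s, hs, k, p, hp, q, hq, h⟩
        · exact absurd h hw
        · rw [Set.mem_iUnion₂]
          refine ⟨(s, k, p, q), ?_, h⟩
          unfold SUM_J
          simp only [mem_product]
          exact ⟨hs, mem_univ _, hp, hq⟩
      have h1 : Pr (Ev fun c => BAD c S v₀) ≤ ∑ j ∈ SUM_J n, Pr (Ev fun c =>
          SR c j.2.1 S (v₀.1 + 2 ^ j.1 * j.2.2.1, v₀.2 + 2 ^ j.1 * j.2.2.2) (2 ^ j.1)) :=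
        (measureReal_mono hsub (measure_ne_top P1 _)).trans (measureReal_biUnion_finset_le _ _)
      have h2 : ∑ j ∈ SUM_J n, Pr (Ev fun c =>
          SR c j.2.1 S (v₀.1 + 2 ^ j.1 * j.2.2.1, v₀.2 + 2 ^ j.1 * j.2.2.2) (2 ^ j.1)) ≤
          ∑ j ∈ SUM_J n, C * #(S.filter fun v =>
          sd (v₀.1 + 2 ^ j.1 * j.2.2.1, v₀.2 + 2 ^ j.1 * j.2.2.2) v ≤ 3 * 2 ^ j.1 + 1) /
            ((2 ^ j.1 : ℕ) : ℝ) ^ 2 := by
        refine Finset.sum_le_sum fun j _ => ?_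
        exact hS j.2.1 S _ (2 ^ j.1) Nat.one_le_two_pow
      have h3 : (0 : ℝ) ≤ (#(S.filter fun w => sd (v₀.1 + 0, v₀.2 + 0) w ≤ 200) : ℝ) :=
        Nat.cast_nonneg _
      linarith
  refine (Finset.sum_le_sum key).trans ?_
  rw [Finset.sum_add_distrib, Finset.sum_comm]
  have hA := SUM_cntR ((univ : Finset (Fin n × Fin n)).image phi) S 0 0 200
  have hB : ∀ j ∈ SUM_J n, ∑ v₀ ∈ (univ : Finset (Fin n × Fin n)).image phi,
      C * #(S.filter fun v =>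
          sd (v₀.1 + 2 ^ j.1 * j.2.2.1, v₀.2 + 2 ^ j.1 * j.2.2.2) v ≤ 3 * 2 ^ j.1 + 1) /
            ((2 ^ j.1 : ℕ) : ℝ) ^ 2 ≤ 81 * C * #S := by
    intro j _
    have h := SUM_cntR ((univ : Finset (Fin n × Fin n)).image phi) S (2 ^ j.1 * j.2.2.1)
      (2 ^ j.1 * j.2.2.2) (3 * 2 ^ j.1 + 1)
    rw [← Finset.sum_div, ← Finset.mul_sum, div_le_iff₀ (by positivity)]
    have ht : (1 : ℝ) ≤ ((2 ^ j.1 : ℕ) : ℝ) := by exact_mod_cast Nat.one_le_two_pow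
    set t : ℝ := ((2 ^ j.1 : ℕ) : ℝ) with htdef
    have e : (((3 * 2 ^ j.1 + 1 : ℕ) : ℝ)) = 3 * t + 1 := by
      rw [htdef]; push_cast; ring
    rw [e] at h
    have h5 : (2 * (3 * t + 1) + 1) ^ 2 ≤ 81 * t ^ 2 := by nlinarith
    have h6 : (0 : ℝ) ≤ (#S : ℝ) := Nat.cast_nonneg _
    calc C * ∑ v₀ ∈ (univ : Finset (Fin n × Fin n)).image phi, (#(S.filter fun v =>
          sd (v₀.1 + 2 ^ j.1 * j.2.2.1, v₀.2 + 2 ^ j.1 * j.2.2.2) v ≤ 3 * 2 ^ j.1 + 1) : ℝ)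
        ≤ C * (#S * (2 * (3 * t + 1) + 1) ^ 2) := mul_le_mul_of_nonneg_left h hC.le
      _ ≤ C * (#S * (81 * t ^ 2)) :=
          mul_le_mul_of_nonneg_left (mul_le_mul_of_nonneg_left h5 h6) hC.le
      _ = 81 * C * #S * t ^ 2 := by ring
  have hB' := Finset.sum_le_card_nsmul (SUM_J n) _ _ hB
  rw [SUM_J_card, nsmul_eq_mul] at hB'
  obtain ⟨l1, l2⟩ := SUM_log n hn
  have h6 : (0 : ℝ) ≤ (#S : ℝ) := Nat.cast_nonneg _
  have hB'' := hB'.trans_eq (show (((Nat.log 2 n + 1) * (2 * (801 * 801)) : ℕ) : ℝ) *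
    (81 * C * #S) = (((Nat.log 2 n : ℕ) : ℝ) + 1) * (2 * (801 * 801)) * (81 * C * #S) by
      push_cast; ring)
  push_cast at hA
  have h7 : ((Nat.log 2 n : ℕ) : ℝ) + 1 ≤ 4 * Real.log n := by linarith
  have h8 : (0 : ℝ) ≤ 2 * (801 * 801) * (81 * C * #S) := by positivity
  have h9 : (((Nat.log 2 n : ℕ) : ℝ) + 1) * (2 * (801 * 801) * (81 * C * #S)) ≤
      4 * Real.log n * (2 * (801 * 801) * (81 * C * #S)) := mul_le_mul_of_nonneg_right h7 h8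
  have h10 : (#S : ℝ) * 401 ^ 2 * 1 ≤ #S * 401 ^ 2 * (2 * Real.log n) :=
    mul_le_mul_of_nonneg_left l1 (by positivity)
  calc _ ≤ (#S : ℝ) * (2 * 200 + 1) ^ 2 +
        (((Nat.log 2 n : ℕ) : ℝ) + 1) * (2 * (801 * 801)) * (81 * C * #S) := add_le_add hA hB''
    _ ≤ (2 * 401 ^ 2 + 4 * (2 * (801 * 801) * (81 * C))) * #S * Real.log n := by
        nlinarith

end TP.TW
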